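import Pool.Agent.H88.CL.Basic

/-!
# MP_43af95_an, board `cl_modules`, row ITC: iterates are nearly affine on small balls
-/

set_option autoImplicit false

open Pool.Agent.H88.CL Set Function Topology Metric Filter

namespace Pool.Agent.H13.CL

theorem lip_fderiv_iterate (h : T_ITA) (d : ℕ) (L : ℝ) (F F' : E d → E d) (hc : Cfg d L F F')
    (l : ℕ) : ∀ x y, ‖fderiv ℝ F^[l] x - fderiv ℝ F^[l] y‖ ≤ L ^ (3 * l) * ‖x - y‖ := by
  have hL2 := hc.two
  have hL1 := hc.one_le
  have hL0 := hc.pos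
  induction l with
  | zero =>
    intro x y
    rw [iterate_zero, fderiv_id, fderiv_id, sub_self, norm_zero]
    positivity
  | succ l ih =>
    intro x y
    obtain ⟨hsm, hb, hl, -⟩ := h d L F F' hc l
    have hd : Differentiable ℝ F^[l] := hsm.differentiable (by norm_num)
    have hF : Differentiable ℝ F := hc.c2.differentiable (by norm_num)
    have hcomp : ∀ z, fderiv ℝ F^[l + 1] z = (fderiv ℝ F (F^[l] z)).comp (fderiv ℝ F^[l] z) := by
      intro z
      rw [iterate_succ']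
      exact fderiv_comp z (hF _) (hd z)
    have hsplit : fderiv ℝ F^[l + 1] x - fderiv ℝ F^[l + 1] y =
        (fderiv ℝ F (F^[l] x) - fderiv ℝ F (F^[l] y)).comp (fderiv ℝ F^[l] x) +
        (fderiv ℝ F (F^[l] y)).comp (fderiv ℝ F^[l] x - fderiv ℝ F^[l] y) := by
      rw [hcomp, hcomp, ContinuousLinearMap.sub_comp, ContinuousLinearMap.comp_sub]
      abel
    have h1 : ‖(fderiv ℝ F (F^[l] x) - fderiv ℝ F (F^[l] y)).comp (fderiv ℝ F^[l] x)‖ ≤
        L ^ (2 * l + 1) * ‖x - y‖ := by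
      refine (ContinuousLinearMap.opNorm_comp_le _ _).trans ?_
      have h2 : ‖fderiv ℝ F (F^[l] x) - fderiv ℝ F (F^[l] y)‖ ≤ L * (L ^ l * ‖x - y‖) :=
        (hc.lp _ _).trans (mul_le_mul_of_nonneg_left (hl x y) hL0.le)
      calc _ ≤ (L * (L ^ l * ‖x - y‖)) * L ^ l :=
            mul_le_mul h2 (hb x) (norm_nonneg _) (by positivity)
        _ = L ^ (2 * l + 1) * ‖x - y‖ := by ring
    have h3 : ‖(fderiv ℝ F (F^[l] y)).comp (fderiv ℝ F^[l] x - fderiv ℝ F^[l] y)‖ ≤
        L ^ (3 * l + 1) * ‖x - y‖ := by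
      refine (ContinuousLinearMap.opNorm_comp_le _ _).trans ?_
      calc _ ≤ L * (L ^ (3 * l) * ‖x - y‖) :=
            mul_le_mul (hc.b _) (ih x y) (norm_nonneg _) hL0.le
        _ = L ^ (3 * l + 1) * ‖x - y‖ := by ring
    have h4 : L ^ (2 * l + 1) ≤ L ^ (3 * l + 1) := pow_le_pow_right₀ hL1 (by omega)
    have h5 : L ^ (3 * l + 1) + L ^ (3 * l + 1) ≤ L ^ (3 * l + 2) := by
      have h6 : L ^ (3 * l + 2) = L ^ (3 * l + 1) * L := by ring
      have h7 : 0 < L ^ (3 * l + 1) := by positivity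
      nlinarith
    have h8 : L ^ (3 * l + 2) ≤ L ^ (3 * (l + 1)) := pow_le_pow_right₀ hL1 (by omega)
    rw [hsplit]
    refine (norm_add_le _ _).trans ((add_le_add h1 h3).trans ?_)
    rw [← add_mul]
    exact mul_le_mul_of_nonneg_right (by linarith) (norm_nonneg _)

theorem pf_ITC (h : T_ITA) : T_ITC := by
  intro d L F F' hc l b x y r hx hy
  have hL0 := hc.pos
  obtain ⟨hsm, -, -, -⟩ := h d L F F' hc l
  have hd : Differentiable ℝ F^[l] := hsm.differentiable (by norm_num)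
  have hlip := lip_fderiv_iterate h d L F F' hc l
  refine Convex.norm_image_sub_le_of_norm_fderiv_le' (𝕜 := ℝ) (s := closedBall b r) (f := F^[l])
    (φ := fderiv ℝ F^[l] b) (C := L ^ (3 * l) * r) (fun z _ => hd z) (fun z hz => ?_)
    (convex_closedBall b r) ?_ ?_
  · refine (hlip z b).trans ?_
    have h1 : ‖z - b‖ ≤ r := by
      rw [← dist_eq_norm]
      exact hz
    exact mul_le_mul_of_nonneg_left h1 (by positivity)
  · rw [mem_closedBall, dist_eq_norm]
    exact hy
  · rw [mem_closedBall, dist_eq_norm]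
    exact hx

end Pool.Agent.H13.CL
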